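import Pool.Agent.W_f569db_u64.USym

set_option autoImplicit false

/-!
# Young symmetrizers of words

`t : List (ℕ × β)`: a list of blocks, each with a length and a letter.  `Jt t` is the set of the positions,
`lt t` the letter of a position, `eL t` the product of the symmetrizers of the blocks.
-/

noncomputable section

namespace ZO

open Matrix Module

section eK

variable {α : Type} [Fintype α] [DecidableEq α] {K : Type*} [Field K]
  {D : Type} [Fintype D] [DecidableEq D] {J J' : Type} [Fintype J] [DecidableEq J] [Fintype J']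
  [DecidableEq J']

/-- `(J ⊕ J') × D` as a disjoint union -/
def eB (D J J' : Type) : (J × D) ⊕ (J' × D) ≃ (J ⊕ J') × D := (Equiv.sumProdDistrib J J' D).symm

/-- the Kronecker product, on `(J ⊕ J') × D` -/
def eK (A : Matrix (J × D → α) (J × D → α) K) (B : Matrix (J' × D → α) (J' × D → α) K) :
    Matrix ((J ⊕ J') × D → α) ((J ⊕ J') × D → α) K :=
  pm α K (eB D J J') * kr A B * pm α K (eB D J J').symm

theorem UBlk_conj_idem {S S' : Type} [Fintype S] [DecidableEq S] [Fintype S'] [DecidableEq S']
    (e : S ≃ S') {X : Matrix (S → α) (S → α) K} (hX : X * X = X) :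
    (pm α K e * X * pm α K e.symm) * (pm α K e * X * pm α K e.symm) =
      pm α K e * X * pm α K e.symm := by
  calc (pm α K e * X * pm α K e.symm) * (pm α K e * X * pm α K e.symm)
      = pm α K e * X * (pm α K e.symm * pm α K e) * X * pm α K e.symm := by
        simp only [Matrix.mul_assoc]
    _ = pm α K e * (X * X) * pm α K e.symm := by
        rw [pm_symm_mul, Matrix.mul_one]
        simp only [Matrix.mul_assoc]
    _ = pm α K e * X * pm α K e.symm := by rw [hX]

/-- the rank of an idempotent is invariant under conjugation by a permutation of the factors -/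
theorem UBlk_conj_rank [CharZero K] {S S' : Type} [Fintype S] [DecidableEq S] [Fintype S']
    [DecidableEq S'] (e : S ≃ S') {X : Matrix (S → α) (S → α) K} (hX : X * X = X) :
    (pm α K e * X * pm α K e.symm).rank = X.rank := by
  have h1 := trace_idem (UBlk_conj_idem e hX)
  rw [Matrix.trace_mul_comm, ← Matrix.mul_assoc, pm_symm_mul, Matrix.one_mul, trace_idem hX] at h1
  exact_mod_cast h1.symm

theorem eK_idem {A : Matrix (J × D → α) (J × D → α) K} {B : Matrix (J' × D → α) (J' × D → α) K}
    (hA : A * A = A) (hB : B * B = B) : eK A B * eK A B = eK A B :=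
  UBlk_conj_idem _ (by rw [kr_mul, hA, hB])

theorem Sys.eK_mem (Q : Sys α K) {A : Matrix (J × D → α) (J × D → α) K}
    {B : Matrix (J' × D → α) (J' × D → α) K} (hA : A ∈ Q.P (J × D) (J × D))
    (hB : B ∈ Q.P (J' × D) (J' × D)) : eK A B ∈ Q.P ((J ⊕ J') × D) ((J ⊕ J') × D) :=
  Q.mul_mem (Q.mul_mem (Q.pm_mem _) (Q.kr_mem hA hB)) (Q.pm_mem _)

theorem rank_eK [CharZero K] {A : Matrix (J × D → α) (J × D → α) K}
    {B : Matrix (J' × D → α) (J' × D → α) K} (hA : A * A = A) (hB : B * B = B) :
    (eK A B).rank = A.rank * B.rank := by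
  unfold eK
  rw [UBlk_conj_rank _ (by rw [kr_mul, hA, hB]), rank_kr_idem hA hB]

/-- the row of the symmetrizer at a constant word -/
theorem esym_row [CharZero K] {E : Type} [Fintype E] [DecidableEq E]
    (x : D → α) (y : Matrix (J × D → α) (E → α) K) (i : E → α) (w : J × D → α) (hw : ∀ p, w p = x p.2) :
    (esym α K J D * y) w i = y w i := by
  have h1 : ∀ σ : Equiv.Perm J, (pmL α K D σ * y) w i = y w i := by
    intro σ
    have h2 : w ∘ (Equiv.prodCongr σ (Equiv.refl D)) = w := by
      funext p
      rw [Function.comp_apply, hw, hw]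
      rfl
    unfold pmL
    rw [pm_mul_apply, h2]
  unfold esym
  rw [Matrix.smul_mul, Matrix.sum_mul, Matrix.smul_apply, Matrix.sum_apply]
  simp only [h1, Finset.sum_const, Finset.card_univ, Fintype.card_perm]
  rw [← Nat.cast_smul_eq_nsmul K, smul_smul, inv_mul_cancel₀, one_smul]
  exact_mod_cast Nat.factorial_ne_zero _

omit [DecidableEq α] in
/-- the entries of `(A ⊗ B) y` -/
theorem UBlk_kr_mul {S T : Type} [Fintype S] [DecidableEq S] [Fintype T] [DecidableEq T]
    {E : Type} [Fintype E] [DecidableEq E] (A : Matrix (S → α) (S → α) K) (B : Matrix (T → α) (T → α) K)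
    (y : Matrix (S ⊕ T → α) (E → α) K) (c : S ⊕ T → α) (i : E → α) :
    (kr A B * y) c i =
      (A * Matrix.of fun d i => (B * Matrix.of fun d' i => y (Sum.elim d d') i) (c ∘ Sum.inr) i)
        (c ∘ Sum.inl) i := by
  rw [Matrix.mul_apply, Matrix.mul_apply]
  rw [← Equiv.sum_comp (Equiv.sumArrowEquivProdArrow S T α).symm, Fintype.sum_prod_type]
  refine Finset.sum_congr rfl fun d _ => ?_
  rw [Matrix.of_apply, Matrix.mul_apply, Finset.mul_sum]
  refine Finset.sum_congr rfl fun d' _ => ?_
  rw [Matrix.of_apply, ← mul_assoc]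
  rfl

theorem eK_row {E : Type} [Fintype E] [DecidableEq E] (A : Matrix (J × D → α) (J × D → α) K)
    (B : Matrix (J' × D → α) (J' × D → α) K) (y : Matrix ((J ⊕ J') × D → α) (E → α) K)
    (w : (J ⊕ J') × D → α) (i : E → α)
    (hA : ∀ (y : Matrix (J × D → α) (E → α) K) (i : E → α),
      (A * y) (fun q => w (Sum.inl q.1, q.2)) i = y (fun q => w (Sum.inl q.1, q.2)) i)
    (hB : ∀ (y : Matrix (J' × D → α) (E → α) K) (i : E → α),
      (B * y) (fun q => w (Sum.inr q.1, q.2)) i = y (fun q => w (Sum.inr q.1, q.2)) i) :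
    (eK A B * y) w i = y w i := by
  unfold eK
  rw [Matrix.mul_assoc, Matrix.mul_assoc, pm_mul_apply, UBlk_kr_mul]
  have h2 : (w ∘ (eB D J J')) ∘ Sum.inl = fun q => w (Sum.inl q.1, q.2) := rfl
  have h3 : (w ∘ (eB D J J')) ∘ Sum.inr = fun q => w (Sum.inr q.1, q.2) := rfl
  rw [h2, h3, hA, Matrix.of_apply, hB, Matrix.of_apply, pm_mul_apply]
  congr 1
  funext q
  obtain ⟨q1, q2⟩ := q
  rcases q1 with q1 | q1
  · rfl
  · rfl

end eK

/-- the positions of a list of blocks -/
def Jt {β : Type} : List (ℕ × β) → Type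
  | [] => Empty
  | p :: t => Fin p.1 ⊕ Jt t

/-- the letter of a position -/
def lt {β : Type} : (t : List (ℕ × β)) → Jt t → β
  | [] => Empty.elim
  | p :: t => Sum.elim (fun _ => p.2) (lt t)

instance instFintypeJt {β : Type} : (t : List (ℕ × β)) → Fintype (Jt t)
  | [] => inferInstanceAs (Fintype Empty)
  | p :: t => @instFintypeSum (Fin p.1) (Jt t) _ (instFintypeJt t)

instance instDecidableEqJt {β : Type} : (t : List (ℕ × β)) → DecidableEq (Jt t)
  | [] => inferInstanceAs (DecidableEq Empty)
  | p :: t => @instDecidableEqSum (Fin p.1) (Jt t) _ (instDecidableEqJt t)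

section eL

variable (α : Type) [Fintype α] [DecidableEq α] (K : Type*) [Field K]
  (D : Type) [Fintype D] [DecidableEq D]

/-- the product of the symmetrizers of the blocks -/
def eL {β : Type} : (t : List (ℕ × β)) → Matrix (Jt t × D → α) (Jt t × D → α) K
  | [] => 1
  | p :: t => eK (esym α K (Fin p.1) D) (eL t)

variable {α K D} {β : Type}

theorem eL_idem [CharZero K] : (t : List (ℕ × β)) → eL α K D t * eL α K D t = eL α K D t
  | [] => Matrix.mul_one _
  | _ :: t => eK_idem esym_idem (eL_idem t)

theorem Sys.eL_mem (Q : Sys α K) : (t : List (ℕ × β)) → eL α K D t ∈ Q.P (Jt t × D) (Jt t × D)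
  | [] => Q.one_mem _
  | _ :: t => Q.eK_mem Q.esym_mem (Q.eL_mem t)

theorem rank_eL_cons [CharZero K] (p : ℕ × β) (t : List (ℕ × β)) :
    (eL α K D (p :: t)).rank = (esym α K (Fin p.1) D).rank * (eL α K D t).rank :=
  rank_eK esym_idem (eL_idem t)

theorem rank_eL_nil [CharZero K] : (eL α K D ([] : List (ℕ × β))).rank = 1 := by
  have h1 := rank_esym_zero (α := α) (K := K) (D := D)
  have h2 := trace_idem (eL_idem (α := α) (K := K) (D := D) ([] : List (ℕ × β)))
  have h3 : Matrix.trace (eL α K D ([] : List (ℕ × β))) = 1 := by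
    change Matrix.trace (1 : Matrix (Empty × D → α) (Empty × D → α) K) = 1
    rw [Matrix.trace_one, Fintype.card_fun, Fintype.card_prod, Fintype.card_empty, zero_mul,
      pow_zero, Nat.cast_one]
  rw [h3] at h2
  exact_mod_cast h2.symm

/-- the word of a list of blocks -/
def wL (t : List (ℕ × (D → α))) : Jt t × D → α := fun q => lt t q.1 q.2

/-- the row of `eL t` at the word of `t` -/
theorem eL_row [CharZero K] {E : Type} [Fintype E] [DecidableEq E] : (t : List (ℕ × (D → α))) →
    (y : Matrix (Jt t × D → α) (E → α) K) → (i : E → α) →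
      (eL α K D t * y) (wL t) i = y (wL t) i
  | [], y, i => by
    have h1 : eL α K D ([] : List (ℕ × (D → α))) = 1 := rfl
    rw [h1, Matrix.one_mul]
  | p :: t, y, i => eK_row (esym α K (Fin p.1) D) (eL α K D t) y (wL (p :: t)) i
    (fun y i => esym_row p.2 y i _ fun _ => rfl) (fun y i => eL_row t y i)

end eL

end ZO
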