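import Pool.Agent.W_f569db_u64.UDef

set_option autoImplicit false

/-!
# The chain of layers, general form
-/

noncomputable section

namespace ZO

open Matrix Module

variable {α : Type} [Fintype α] [DecidableEq α] {K : Type*} [Field K] [CharZero K]

namespace Sys

variable (Q : Sys α K)

theorem chainG [Nonempty α] (S : ℕ → Type) [∀ j, Fintype (S j)] [∀ j, DecidableEq (S j)]
    (e : ∀ j, Matrix (S j → α) (S j → α) K) (y : ∀ j, Matrix (S j → α) (Empty → α) K)
    (he : ∀ j, e j ∈ Q.P (S j) (S j)) (he2 : ∀ j, e j * e j = e j)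
    (hy : ∀ j, y j ∈ Q.P Empty (S j)) (hy0 : ∀ j, y j ≠ 0) (hey : ∀ j, e j * y j = y j)
    (hM : ∀ j, ∃ M ∈ Q.N (S j) (S (j + 1)), y (j + 1) = M * y j)
    (T : Type) [Fintype T] [DecidableEq T] (J : ℕ) :
    ∑ j ∈ Finset.range J, (Q.pT T (e j) - (((e j).rank : ℝ) - 1) * Q.a T T) ≤
      Q.h (2 * Fintype.card T) := by
  obtain ⟨F, hF⟩ : ∃ F : ℕ → ℝ, F = fun j => (finrank K ((Q.P (S j) (T ⊕ T)).map
    (sand (1 : Matrix (T ⊕ T → α) (T ⊕ T → α) K) (y j))) : ℝ) := ⟨_, rfl⟩
  obtain ⟨G, hG⟩ : ∃ G : ℕ → ℝ, G = fun j => (finrank K ((Q.N (S j) (T ⊕ T)).map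
    (sand (1 : Matrix (T ⊕ T → α) (T ⊕ T → α) K) (y j))) : ℝ) := ⟨_, rfl⟩
  have hlayer : ∀ j, Q.pT T (e j) - (((e j).rank : ℝ) - 1) * Q.a T T ≤ F j - G j := by
    intro j
    have h1 := Q.layerE T (he j) (he2 j) (hy j) (hy0 j) (hey j)
    rw [hF, hG]
    exact h1
  have hFG : ∀ j, F (j + 1) ≤ G j := by
    intro j
    rw [hF, hG]
    have hle : (Q.P (S (j + 1)) (T ⊕ T)).map
        (sand (1 : Matrix (T ⊕ T → α) (T ⊕ T → α) K) (y (j + 1))) ≤
        (Q.N (S j) (T ⊕ T)).map
          (sand (1 : Matrix (T ⊕ T → α) (T ⊕ T → α) K) (y j)) := by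
      rintro _ ⟨f, hf, rfl⟩
      obtain ⟨M, hM, h⟩ := hM j
      refine ⟨f * M, Q.N_mul_left hf hM, ?_⟩
      rw [sand_apply, sand_apply, Matrix.one_mul, Matrix.one_mul, h, Matrix.mul_assoc]
    have h1 := Submodule.finrank_mono hle
    simp only
    exact_mod_cast h1
  have hF0 : ∀ j, 0 ≤ F j := by
    intro j
    rw [hF]
    exact Nat.cast_nonneg _
  have hsum : ∀ J : ℕ, ∑ j ∈ Finset.range J, (Q.pT T (e j) -
      (((e j).rank : ℝ) - 1) * Q.a T T) ≤ F 0 - F J := by
    intro J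
    induction J with
    | zero => rw [Finset.range_zero, Finset.sum_empty, sub_self]
    | succ J ih =>
      rw [Finset.sum_range_succ]
      have h1 := hlayer J
      have h2 := hFG J
      linarith
  have hle : F 0 ≤ Q.h (2 * Fintype.card T) := by
    have h1 : (Q.P (S 0) (T ⊕ T)).map
        (sand (1 : Matrix (T ⊕ T → α) (T ⊕ T → α) K) (y 0)) ≤ Q.P Empty (T ⊕ T) := by
      rintro _ ⟨f, hf, rfl⟩
      rw [sand_apply, Matrix.one_mul]
      exact Q.mul_mem hf (hy 0)
    have h2 := Submodule.finrank_mono h1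
    have h3 := Q.finrank_P_empty (T ⊕ T)
    rw [Fintype.card_sum, ← two_mul] at h3
    rw [← h3, hF]
    simp only
    exact_mod_cast h2
  have h1 := hsum J
  have h2 := hF0 J
  linarith

end Sys

section colour

/-- two colourings with the same numbers of points of each colour -/
theorem exists_equiv_colour {A C β : Type} [Fintype A] [Fintype C] [DecidableEq β] (f : A → β)
    (g : C → β) (h : ∀ l, Fintype.card {a // f a = l} = Fintype.card {c // g c = l}) :
    ∃ e : A ≃ C, ∀ a, g (e a) = f a := by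
  have h1 : ∀ l, Nonempty ({a // f a = l} ≃ {c // g c = l}) := fun l => Fintype.card_eq.1 (h l)
  refine ⟨(Equiv.sigmaFiberEquiv f).symm.trans
    ((Equiv.sigmaCongrRight fun l => (h1 l).some).trans (Equiv.sigmaFiberEquiv g)), fun a => ?_⟩
  exact ((h1 (f a)).some ⟨a, rfl⟩).2

theorem card_lt {β : Type} [DecidableEq β] (l : β) : (t : List (ℕ × β)) →
    Fintype.card {q : Jt t // lt t q = l} = (t.map fun p => if p.2 = l then p.1 else 0).sum
  | [] => by
    rw [List.map_nil, List.sum_nil, Fintype.card_eq_zero_iff]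
    exact ⟨fun q => Empty.elim q.1⟩
  | p :: t => by
    rw [List.map_cons, List.sum_cons, ← card_lt l t]
    have h1 : Fintype.card {q : Fin p.1 ⊕ Jt t // Sum.elim (fun _ => p.2) (lt t) q = l} =
        Fintype.card {q : Fin p.1 // p.2 = l} + Fintype.card {q : Jt t // lt t q = l} := by
      rw [← Fintype.card_sum]
      exact Fintype.card_congr (Equiv.subtypeSum (p := fun q : Fin p.1 ⊕ Jt t =>
        Sum.elim (fun _ => p.2) (lt t) q = l))
    have h2 : Fintype.card {q : Jt (p :: t) // lt (p :: t) q = l} =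
        Fintype.card {q : Fin p.1 ⊕ Jt t // Sum.elim (fun _ => p.2) (lt t) q = l} :=
      Fintype.card_congr (Equiv.refl _)
    rw [h2, h1]
    congr 1
    split_ifs with h3
    · rw [Fintype.card_congr (Equiv.subtypeUnivEquiv fun _ => h3), Fintype.card_fin]
    · rw [Fintype.card_eq_zero_iff]
      exact ⟨fun q => h3 q.2⟩

end colour

end ZO
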