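import Pool.Agent.W_f569db_u64.UBlk

set_option autoImplicit false

/-!
# The deficit of Young symmetrizers

`dfc m e = rank e * a - pT e`, `a = a (Fin m) (Fin m)`.
-/

noncomputable section

namespace ZO

open Matrix Module

variable {α : Type} [Fintype α] [DecidableEq α] [Nonempty α] {K : Type*} [Field K] [CharZero K]
  {D : Type} [Fintype D] [DecidableEq D] {J J' : Type} [Fintype J] [DecidableEq J] [Fintype J']
  [DecidableEq J'] {S : Type} [Fintype S] [DecidableEq S]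

namespace Sys

variable (Q : Sys α K)

/-- the deficit of `e` relative to `V^{⊗ m}` -/
def dfc (m : ℕ) (e : Matrix (S → α) (S → α) K) : ℝ :=
  (e.rank : ℝ) * Q.a (Fin m) (Fin m) - Q.pT (Fin m) e

theorem dfc_nonneg (m : ℕ) {e : Matrix (S → α) (S → α) K} (he : e ∈ Q.P S S) (he2 : e * e = e) :
    0 ≤ Q.dfc m e := by
  unfold dfc
  have := Q.pT_le (T := Fin m) he he2
  linarith

theorem dfc_eK (m : ℕ) {f : Matrix (J × D → α) (J × D → α) K}
    {e : Matrix (J' × D → α) (J' × D → α) K} (hf : f ∈ Q.P (J × D) (J × D))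
    (he : e ∈ Q.P (J' × D) (J' × D)) (hf2 : f * f = f) (he2 : e * e = e)
    (hadj : adj Q.g Q.g' f = f) {x y : ℝ} (hy : 0 ≤ y)
    (hx : Q.dfc m e ≤ x * Q.a (Fin m) (Fin m)) (hyf : Q.dfc m f ≤ y * Q.a (Fin m) (Fin m)) :
    Q.dfc m (eK f e) ≤ ((f.rank : ℝ) * x + (e.rank : ℝ) * Real.sqrt (2 * f.rank * y)) *
      Q.a (Fin m) (Fin m) := by
  have ha : 0 < Q.a (Fin m) (Fin m) := Q.a_pos (Fin m)
  have hv := Q.virt (T := Fin m) he hf he2 hf2
  rw [hadj] at hv
  have hr : (0 : ℝ) ≤ f.rank := Nat.cast_nonneg _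
  have hR : (0 : ℝ) ≤ e.rank := Nat.cast_nonneg _
  have h1 : Q.pT (Fin m) (eK f e) = Q.pT (Fin m) (kr f e) :=
    Q.FinalE_pT_pm (eB D J J') (Q.kr_mem hf he) (by rw [kr_mul, hf2, he2])
  have h2 : ((eK f e).rank : ℝ) = f.rank * e.rank := by
    rw [rank_eK hf2 he2, Nat.cast_mul]
  have h3 : (f.rank : ℝ) * Q.pT (Fin m) e - Q.pT (Fin m) (kr f e) ≤
      (e.rank : ℝ) * Real.sqrt (2 * f.rank * y) * Q.a (Fin m) (Fin m) := by
    have h4 : ((f.rank : ℝ) * Q.pT (Fin m) e - Q.pT (Fin m) (kr f e)) ^ 2 ≤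
        ((e.rank : ℝ) * Real.sqrt (2 * f.rank * y) * Q.a (Fin m) (Fin m)) ^ 2 := by
      refine hv.trans ?_
      rw [mul_pow, mul_pow, Real.sq_sqrt (by positivity)]
      have h5 : (2 : ℝ) * f.rank * (f.rank * Q.a (Fin m) (Fin m) - Q.pT (Fin m) f) ≤
          2 * f.rank * (y * Q.a (Fin m) (Fin m)) :=
        mul_le_mul_of_nonneg_left hyf (by positivity)
      calc (2 : ℝ) * f.rank * (f.rank * Q.a (Fin m) (Fin m) - Q.pT (Fin m) f) *
            ((e.rank : ℝ) ^ 2 * Q.a (Fin m) (Fin m))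
          ≤ 2 * f.rank * (y * Q.a (Fin m) (Fin m)) * ((e.rank : ℝ) ^ 2 * Q.a (Fin m) (Fin m)) :=
            mul_le_mul_of_nonneg_right h5 (by positivity)
        _ = (e.rank : ℝ) ^ 2 * (2 * f.rank * y) * Q.a (Fin m) (Fin m) ^ 2 := by ring
    exact le_of_sq_le_sq h4 (by positivity)
  have h6 : (f.rank : ℝ) * Q.dfc m e ≤ f.rank * (x * Q.a (Fin m) (Fin m)) :=
    mul_le_mul_of_nonneg_left hx hr
  unfold dfc at h6 ⊢
  rw [h1, h2]
  linarith

theorem pT_one_of_isEmpty [IsEmpty S] (m : ℕ) :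
    Q.pT (Fin m) (1 : Matrix (S → α) (S → α) K) = Q.a (Fin m) (Fin m) := by
  have h1 : Q.pT (Fin m) (1 : Matrix (S → α) (S → α) K) = Q.a (S ⊕ Fin m) (Fin m) := by
    unfold pT
    rw [kr_one, csp_sand_one]
    rfl
  rw [h1, Q.a_eq_A, Q.a_eq_A, Fintype.card_sum, Fintype.card_eq_zero, zero_add]

theorem dfc_eL (m : ℕ) {β : Type} {M y : ℝ} (hM : 1 ≤ M) (hy : 0 ≤ y) : (t : List (ℕ × β)) →
    (∀ p ∈ t, ((esym α K (Fin p.1) D).rank : ℝ) ≤ M ∧
      Q.dfc m (esym α K (Fin p.1) D) ≤ y * Q.a (Fin m) (Fin m)) →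
    ((eL α K D t).rank : ℝ) ≤ M ^ t.length ∧
      Q.dfc m (eL α K D t) ≤ (t.length * M ^ t.length * Real.sqrt (2 * M * y)) *
        Q.a (Fin m) (Fin m)
  | [], _ => by
    refine ⟨?_, ?_⟩
    · rw [rank_eL_nil, Nat.cast_one, List.length_nil, pow_zero]
    · unfold dfc
      rw [rank_eL_nil, Nat.cast_one, one_mul, List.length_nil, Nat.cast_zero, zero_mul, zero_mul,
        zero_mul]
      have h1 : Q.pT (Fin m) (eL α K D ([] : List (ℕ × β))) = Q.a (Fin m) (Fin m) :=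
        Q.pT_one_of_isEmpty (S := Empty × D) m
      rw [h1, sub_self]
  | p :: t, h => by
    obtain ⟨h1, h2⟩ := h p List.mem_cons_self
    obtain ⟨h3, h4⟩ := dfc_eL m hM hy t fun q hq => h q (List.mem_cons_of_mem _ hq)
    have ha : 0 < Q.a (Fin m) (Fin m) := Q.a_pos (Fin m)
    have hr : (0 : ℝ) ≤ (esym α K (Fin p.1) D).rank := Nat.cast_nonneg _
    have hR : (0 : ℝ) ≤ (eL α K D t).rank := Nat.cast_nonneg _
    have hM0 : (0 : ℝ) ≤ M := zero_le_one.trans hM
    refine ⟨?_, ?_⟩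
    · rw [rank_eL_cons, Nat.cast_mul, List.length_cons, pow_succ']
      exact mul_le_mul h1 h3 hR hM0
    · have h5 := Q.dfc_eK m (Q.esym_mem (J := Fin p.1) (D := D)) (Q.eL_mem (D := D) t) esym_idem
        (eL_idem t) (adj_esym Q.gg') hy h4 h2
      refine h5.trans (mul_le_mul_of_nonneg_right ?_ ha.le)
      rw [List.length_cons]
      have hs : Real.sqrt (2 * (esym α K (Fin p.1) D).rank * y) ≤ Real.sqrt (2 * M * y) := by
        apply Real.sqrt_le_sqrt
        have : (2 : ℝ) * (esym α K (Fin p.1) D).rank ≤ 2 * M := by linarith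
        exact mul_le_mul_of_nonneg_right this hy
      have hs0 := Real.sqrt_nonneg (2 * M * y)
      have hpow : (0 : ℝ) ≤ M ^ t.length := pow_nonneg hM0 _
      have e1 : ((esym α K (Fin p.1) D).rank : ℝ) *
          (t.length * M ^ t.length * Real.sqrt (2 * M * y)) ≤
          M * (t.length * M ^ t.length * Real.sqrt (2 * M * y)) :=
        mul_le_mul_of_nonneg_right h1 (by positivity)
      have e2 : ((eL α K D t).rank : ℝ) * Real.sqrt (2 * (esym α K (Fin p.1) D).rank * y) ≤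
          M ^ t.length * Real.sqrt (2 * M * y) :=
        mul_le_mul h3 hs (Real.sqrt_nonneg _) hpow
      have e3 : M ^ t.length * Real.sqrt (2 * M * y) ≤
          M ^ (t.length + 1) * Real.sqrt (2 * M * y) :=
        mul_le_mul_of_nonneg_right (pow_le_pow_right₀ hM (Nat.le_succ _)) hs0
      refine (add_le_add e1 (e2.trans e3)).trans (le_of_eq ?_)
      push_cast
      ring

end Sys

end ZO
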