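import Pool.Agent.W_f569db_u64.UStep

set_option autoImplicit false

/-!
# The uniform law

`b = card α`, `B = b ^ 2`.  If `0 ≠ z ∈ N ∅ D`, `card D = 2 k`, and `UC b * (J k + 1) ^ UE b ≤ m`, then
`J A (2m) ≤ 2 h (2m)`.
-/

noncomputable section

namespace ZO

open Matrix Module

/-- the constant of the uniform law -/
def UC (b : ℕ) : ℕ := 2 ^ 14 * (b ^ 2) ^ (4 * b ^ 2 + 14) * b ^ 4

/-- the exponent of the uniform law -/
def UE (b : ℕ) : ℕ := 4 * (b ^ 2 + 1) * (2 * b ^ 2 + 1)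

theorem UFin_num (b B L m : ℕ) (hb : 1 ≤ b) (hB : 1 ≤ B)
    (hm : 2 ^ 14 * B ^ (4 * B + 14) * b ^ 4 * (L + 1) ^ (4 * (B + 1) * (2 * B + 1)) ≤ m) :
    (B : ℝ) * (((L : ℝ) + 1) ^ B) ^ B * Real.sqrt (2 * ((L : ℝ) + 1) ^ B *
      (L * ((L : ℝ) + 1) ^ B * ((B : ℝ) * Real.sqrt (2 * (B : ℝ) ^ (2 * B + 1) * (b : ℝ) ^ 2 *
        ((1 : ℕ) : ℝ) / Real.sqrt m) * ((L : ℝ) + 1) ^ B))) ≤ 1 / 2 := by
  have hB0 : (0 : ℝ) < B := by exact_mod_cast hB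
  have hb0 : (0 : ℝ) < b := by exact_mod_cast hb
  have hL0 : (0 : ℝ) < (L : ℝ) + 1 := by positivity
  have hL1 : (1 : ℝ) ≤ (L : ℝ) + 1 := by
    have : (0 : ℝ) ≤ L := Nat.cast_nonneg L
    linarith
  have hmr : (2 : ℝ) ^ 14 * (B : ℝ) ^ (4 * B + 14) * (b : ℝ) ^ 4 *
      ((L : ℝ) + 1) ^ (4 * (B + 1) * (2 * B + 1)) ≤ m := by exact_mod_cast hm
  have hs : 128 * (B : ℝ) ^ (2 * B + 7) * (b : ℝ) ^ 2 *
      ((L : ℝ) + 1) ^ (2 * (B + 1) * (2 * B + 1)) ≤ Real.sqrt m := by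
    apply Real.le_sqrt_of_sq_le
    refine le_trans (le_of_eq ?_) hmr
    have e1 : (B : ℝ) ^ (4 * B + 14) = ((B : ℝ) ^ (2 * B + 7)) ^ 2 := by
      rw [← pow_mul]
      congr 1
      ring
    have e2 : ((L : ℝ) + 1) ^ (4 * (B + 1) * (2 * B + 1)) =
        (((L : ℝ) + 1) ^ (2 * (B + 1) * (2 * B + 1))) ^ 2 := by
      rw [← pow_mul]
      congr 1
      ring
    rw [e1, e2]
    ring
  have hsp : 0 < Real.sqrt m := lt_of_lt_of_le (by positivity) hs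
  set C : ℝ := Real.sqrt (2 * (B : ℝ) ^ (2 * B + 1) * (b : ℝ) ^ 2 * ((1 : ℕ) : ℝ) / Real.sqrt m)
    with hC
  have hC0 : 0 ≤ C := Real.sqrt_nonneg _
  -- the bound for `C`
  have hCle : 8 * (B : ℝ) ^ 3 * ((L : ℝ) + 1) ^ ((B + 1) * (2 * B + 1)) * C ≤ 1 := by
    have h1 : 0 ≤ 8 * (B : ℝ) ^ 3 * ((L : ℝ) + 1) ^ ((B + 1) * (2 * B + 1)) := by positivity
    refine le_trans ?_ Real.sqrt_one.le
    rw [← Real.sqrt_sq h1, hC, ← Real.sqrt_mul (sq_nonneg _)]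
    apply Real.sqrt_le_sqrt
    rw [← mul_div_assoc, div_le_one hsp]
    refine le_trans (le_of_eq ?_) hs
    have e1 : ((L : ℝ) + 1) ^ (2 * (B + 1) * (2 * B + 1)) =
        (((L : ℝ) + 1) ^ ((B + 1) * (2 * B + 1))) ^ 2 := by
      rw [← pow_mul]
      congr 1
      ring
    have e2 : (B : ℝ) ^ (2 * B + 7) = (B : ℝ) ^ 6 * (B : ℝ) ^ (2 * B + 1) := by
      rw [← pow_add]
      congr 1
      ring
    rw [e1, e2]
    push_cast
    ring
  -- the final estimate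
  have hx : 0 ≤ (B : ℝ) * (((L : ℝ) + 1) ^ B) ^ B := by positivity
  have hL' : (L : ℝ) ≤ (L : ℝ) + 1 := by linarith
  refine le_trans ?_ (le_of_eq (show Real.sqrt (1 / 4) = 1 / 2 by
    rw [show (1 / 4 : ℝ) = (1 / 2) ^ 2 by norm_num, Real.sqrt_sq (by norm_num)]))
  rw [← Real.sqrt_sq hx, ← Real.sqrt_mul (sq_nonneg _)]
  apply Real.sqrt_le_sqrt
  have e3 : ((B : ℝ) * (((L : ℝ) + 1) ^ B) ^ B) ^ 2 * (2 * ((L : ℝ) + 1) ^ B *
      (L * ((L : ℝ) + 1) ^ B * ((B : ℝ) * C * ((L : ℝ) + 1) ^ B))) =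
      1 / 4 * (8 * (B : ℝ) ^ 3 * (L * ((((L : ℝ) + 1) ^ B) ^ B) ^ 2 *
        (((L : ℝ) + 1) ^ B) ^ 3) * C) := by ring
  rw [e3]
  have e4 : (L : ℝ) * ((((L : ℝ) + 1) ^ B) ^ B) ^ 2 * (((L : ℝ) + 1) ^ B) ^ 3 ≤
      ((L : ℝ) + 1) ^ ((B + 1) * (2 * B + 1)) := by
    have e5 : ((L : ℝ) + 1) ^ ((B + 1) * (2 * B + 1)) =
        ((L : ℝ) + 1) * ((((L : ℝ) + 1) ^ B) ^ B) ^ 2 * (((L : ℝ) + 1) ^ B) ^ 3 := by
      rw [← pow_mul, ← pow_mul, ← pow_mul, ← pow_succ', ← pow_add]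
      congr 1
      ring
    rw [e5]
    gcongr
  calc 1 / 4 * (8 * (B : ℝ) ^ 3 * (L * ((((L : ℝ) + 1) ^ B) ^ B) ^ 2 *
        (((L : ℝ) + 1) ^ B) ^ 3) * C)
      ≤ 1 / 4 * (8 * (B : ℝ) ^ 3 * ((L : ℝ) + 1) ^ ((B + 1) * (2 * B + 1)) * C) := by
        gcongr
    _ ≤ 1 / 4 * 1 := by gcongr
    _ = 1 / 4 := by ring

variable {α : Type} [Fintype α] [DecidableEq α] [Nonempty α] {K : Type*} [Field K] [CharZero K]

namespace Sys

variable (Q : Sys α K)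

theorem uniform_aux {k : ℕ} {z : Matrix (Fin k × Bool → α) (Empty → α) K}
    (hz : z ∈ Q.N Empty (Fin k × Bool)) (hz0 : z ≠ 0) (J m : ℕ) (hm1 : 1 ≤ m)
    (hm : UC (Fintype.card α) * (J * k + 1) ^ UE (Fintype.card α) ≤ m) :
    (J : ℝ) * Q.A (2 * m) ≤ 2 * Q.h (2 * m) := by
  obtain ⟨c, i, hci⟩ : ∃ c i, z c i ≠ 0 := by
    by_contra h
    push Not at h
    exact hz0 (Matrix.ext h)
  set w : Fin k → (Bool → α) := fun i x => c (i, x) with hw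
  have hwc : (fun q : Fin k × Bool => w q.1 q.2) = c := rfl
  have hb : 1 ≤ Fintype.card α := Fintype.card_pos
  set b := Fintype.card α with hbdef
  set B : ℕ := b ^ 2 with hB
  have hB1 : 1 ≤ B := Nat.one_le_pow _ _ hb
  set L : ℕ := J * k with hL
  have ha : 0 < Q.a (Fin m) (Fin m) := Q.a_pos (Fin m)
  have haT : Q.a (Fin m) (Fin m) = Q.A (2 * m) := by
    rw [Q.a_eq_A (Fin m) (Fin m), Fintype.card_fin, ← two_mul]
  have hD : Fintype.card Bool = 2 * 1 := by rw [Fintype.card_bool]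
  have hrank : ∀ l ≤ L, ((esym α K (Fin l) Bool).rank : ℝ) ≤ ((L : ℝ) + 1) ^ B := by
    intro l hl
    have h1 := rank_esym_le (α := α) (K := K) (D := Bool) l
    rw [Fintype.card_bool, ← hbdef, ← hB] at h1
    have h2 : (l + 1) ^ B ≤ (L + 1) ^ B := Nat.pow_le_pow_left (by omega) _
    have h3 := h1.trans h2
    exact_mod_cast h3
  set C : ℝ := Real.sqrt (2 * (B : ℝ) ^ (2 * B + 1) * (b : ℝ) ^ 2 * ((1 : ℕ) : ℝ) / Real.sqrt m)
    with hC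
  have hC0 : 0 ≤ C := Real.sqrt_nonneg _
  set M : ℝ := ((L : ℝ) + 1) ^ B with hM
  have hL0 : (0 : ℝ) ≤ L := Nat.cast_nonneg L
  have hM1 : 1 ≤ M := one_le_pow₀ (by linarith)
  have hM0 : 0 ≤ M := zero_le_one.trans hM1
  have hsym : ∀ l ≤ L, Q.dfc m (esym α K (Fin l) Bool) ≤
      (L * M * ((B : ℝ) * C * M)) * Q.a (Fin m) (Fin m) := by
    intro l hl
    have h1 := Q.sym_def hD l m hm1 M (fun l' hl' => hrank l' (hl'.trans hl))
    simp only [Nat.mul_one] at h1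
    rw [← hbdef, ← hB] at h1
    refine h1.trans (mul_le_mul_of_nonneg_right ?_ ha.le)
    have h2 : (l : ℝ) ≤ L := by exact_mod_cast hl
    gcongr
  have hnum := UFin_num b B L m hb hB1 (by
    unfold UC UE at hm
    exact hm)
  have hj : ∀ j ∈ Finset.range J, Q.A (2 * m) / 2 ≤ Q.pT (Fin m) (eL α K Bool (tj w j)) -
      (((eL α K Bool (tj w j)).rank : ℝ) - 1) * Q.a (Fin m) (Fin m) := by
    intro j hj
    have hj' : j < J := Finset.mem_range.1 hj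
    have h1 := (Q.dfc_eL (D := Bool) m (M := M) (y := L * M * ((B : ℝ) * C * M)) hM1
      (by positivity) (tj w j) (fun p hp => by
        have h2 : p.1 ≤ L := (mem_tj hp).trans (Nat.mul_le_mul_right k hj'.le)
        exact ⟨hrank _ h2, hsym _ h2⟩)).2
    have h3 : (tj w j).length = B := by
      rw [length_tj, Fintype.card_fun, Fintype.card_bool]
    rw [h3] at h1
    have h4 : Q.dfc m (eL α K Bool (tj w j)) ≤ 1 / 2 * Q.a (Fin m) (Fin m) :=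
      h1.trans (mul_le_mul_of_nonneg_right hnum ha.le)
    unfold dfc at h4
    rw [← haT]
    linarith
  have h1 := Q.chainW w hz (i := i) (by rw [hwc]; exact hci) (Fin m) J
  rw [Fintype.card_fin] at h1
  have h2 := Finset.sum_le_sum hj
  rw [Finset.sum_const, Finset.card_range, nsmul_eq_mul] at h2
  linarith

end Sys

end ZO
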