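import Pool.Agent.W_f569db_u64.UFin

set_option autoImplicit false

/-!
# The rate
-/

noncomputable section

namespace ZO

theorem UE_le (b : ℕ) (hb : 1 ≤ b) : UE b ≤ 24 * b ^ 4 := by
  unfold UE
  have h1 : 1 ≤ b ^ 2 := Nat.one_le_pow _ _ hb
  calc 4 * (b ^ 2 + 1) * (2 * b ^ 2 + 1) ≤ 4 * (b ^ 2 + b ^ 2) * (2 * b ^ 2 + b ^ 2) := by gcongr
    _ = 24 * b ^ 4 := by ring

theorem UC_le_exp (a : ℕ) : 16 + a * (8 * (a + 1) ^ 2 + 32) ≤ UE (a + 1) := by
  unfold UE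
  have h : 4 * ((a + 1) ^ 2 + 1) * (2 * (a + 1) ^ 2 + 1) =
      (16 + a * (8 * (a + 1) ^ 2 + 32)) + (8 * a ^ 4 + 24 * a ^ 3 + 44 * a ^ 2 + 16 * a + 8) := by
    ring
  rw [h]
  exact Nat.le_add_right _ _

theorem UC_eq (b : ℕ) : UC b = 2 ^ 14 * b ^ (8 * b ^ 2 + 32) := by
  unfold UC
  rw [← pow_mul, mul_assoc, ← pow_add]
  congr 2
  ring

theorem UC_le (b : ℕ) (hb : 1 ≤ b) : 3 * UC b ≤ 2 ^ UE b := by
  obtain ⟨a, rfl⟩ : ∃ a, b = a + 1 := ⟨b - 1, by omega⟩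
  have h1 : a + 1 ≤ 2 ^ a := Nat.lt_two_pow_self
  obtain ⟨e, he⟩ : ∃ e, e = 8 * (a + 1) ^ 2 + 32 := ⟨_, rfl⟩
  have h2 := UC_eq (a + 1)
  have h5 := UC_le_exp a
  rw [← he] at h2 h5
  have h3 : (a + 1) ^ e ≤ 2 ^ (a * e) := by
    rw [pow_mul]
    exact Nat.pow_le_pow_left h1 _
  have h4 : 2 ^ (16 + a * e) = 2 ^ 2 * (2 ^ 14 * 2 ^ (a * e)) := by
    rw [pow_add, ← mul_assoc]
    norm_num
  have h6 : 2 ^ (16 + a * e) ≤ 2 ^ UE (a + 1) := Nat.pow_le_pow_right (by norm_num) h5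
  refine le_trans ?_ h6
  rw [h4, h2]
  exact Nat.mul_le_mul (by norm_num) (Nat.mul_le_mul_left _ h3)

theorem rate_num (A h : ℕ → ℝ) (b d : ℕ) (hb : 1 ≤ b) (hd : 1 ≤ d) (hA0 : ∀ n, 0 ≤ A n)
    (hAh : ∀ n, A n ≤ h n) (hmono : ∀ n, h n ≤ h (n + 1))
    (hodd : ∀ m, A (2 * m + 1) ≤ b * A (2 * m))
    (hJ : ∀ J m : ℕ, 1 ≤ m → UC b * (J * d + 1) ^ UE b ≤ m → (J : ℝ) * A (2 * m) ≤ 2 * h (2 * m))
    (n : ℕ) : (n : ℝ) ^ ((1 : ℝ) / (24 * b ^ 4)) / (24 * b ^ 4 * d) * A n ≤ h n := by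
  have hb1 : (1 : ℝ) ≤ b := by exact_mod_cast hb
  have hd1 : (1 : ℝ) ≤ d := by exact_mod_cast hd
  have hb0 : (0 : ℝ) < b := by linarith
  have hd0 : (0 : ℝ) < d := by linarith
  have hc0 : (0 : ℝ) < (1 : ℝ) / (24 * b ^ 4) := by positivity
  rcases Nat.eq_zero_or_pos n with hn | hn
  · rw [hn, Nat.cast_zero, Real.zero_rpow hc0.ne', zero_div, zero_mul]
    exact (hA0 0).trans (hAh 0)
  have hn1 : (1 : ℝ) ≤ n := by exact_mod_cast hn
  have hn0 : (0 : ℝ) < n := by linarith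
  set x : ℝ := (n : ℝ) ^ ((1 : ℝ) / (24 * b ^ 4)) with hx
  have hx0 : 0 < x := Real.rpow_pos_of_pos hn0 _
  by_cases hcase : x ≤ 24 * b ^ 4 * d
  · refine le_trans ?_ (hAh n)
    have h1 : x / (24 * b ^ 4 * d) ≤ 1 := (div_le_one (by positivity)).2 hcase
    calc x / (24 * b ^ 4 * d) * A n ≤ 1 * A n := mul_le_mul_of_nonneg_right h1 (hA0 n)
      _ = A n := one_mul _
  push Not at hcase
  have hb4 : (1 : ℝ) ≤ (b : ℝ) ^ 4 := one_le_pow₀ hb1
  have hxd : 24 * (d : ℝ) < x := by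
    refine lt_of_le_of_lt ?_ hcase
    have : (24 : ℝ) * d = 24 * 1 * d := by ring
    rw [this]
    gcongr
  have hx24 : 24 < x := by
    have : (24 : ℝ) * 1 ≤ 24 * d := by gcongr
    linarith
  -- `x ^ UE ≤ n`
  have hxE : x ^ UE b ≤ n := by
    rw [hx, ← Real.rpow_natCast, ← Real.rpow_mul hn0.le]
    have h1 : (1 : ℝ) / (24 * b ^ 4) * (UE b : ℕ) ≤ 1 := by
      rw [one_div_mul_eq_div, div_le_one (by positivity)]
      exact_mod_cast UE_le b hb
    calc (n : ℝ) ^ ((1 : ℝ) / (24 * b ^ 4) * (UE b : ℕ)) ≤ (n : ℝ) ^ (1 : ℝ) :=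
          Real.rpow_le_rpow_of_exponent_le hn1 h1
      _ = n := Real.rpow_one _
  have hUEpos : 1 ≤ UE b := by
    unfold UE
    have : 0 < 4 * (b ^ 2 + 1) * (2 * b ^ 2 + 1) := by positivity
    omega
  have hn24 : (24 : ℝ) < n := by
    refine lt_of_lt_of_le hx24 (le_trans ?_ hxE)
    exact le_self_pow₀ (by linarith) (by omega)
  have hn2 : 2 ≤ n := by
    have : (2 : ℝ) ≤ n := by linarith
    exact_mod_cast this
  set m : ℕ := n / 2 with hm
  have hm1 : 1 ≤ m := by omega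
  have hm3 : (n : ℝ) ≤ 3 * m := by
    have : n ≤ 3 * m := by omega
    exact_mod_cast this
  set J : ℕ := ⌊x / (4 * d)⌋₊ with hJdef
  have hJle : (J : ℝ) ≤ x / (4 * d) := Nat.floor_le (by positivity)
  have hJge : x / (4 * d) < J + 1 := Nat.lt_floor_add_one _
  have hJd : (J : ℝ) * d + 1 ≤ x / 2 := by
    have h1 : (J : ℝ) * d ≤ x / 4 := by
      calc (J : ℝ) * d ≤ x / (4 * d) * d := by gcongr
        _ = x / 4 := by field_simp
    linarith
  have hcond : UC b * (J * d + 1) ^ UE b ≤ m := by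
    have h1 : ((UC b * (J * d + 1) ^ UE b : ℕ) : ℝ) ≤ m := by
      push_cast
      have h2 : ((J : ℝ) * d + 1) ^ UE b ≤ (x / 2) ^ UE b :=
        pow_le_pow_left₀ (by positivity) hJd _
      have h3 : (3 : ℝ) * UC b ≤ 2 ^ UE b := by exact_mod_cast UC_le b hb
      have h4 : (0 : ℝ) < 2 ^ UE b := by positivity
      calc (UC b : ℝ) * ((J : ℝ) * d + 1) ^ UE b ≤ (2 ^ UE b / 3) * (x / 2) ^ UE b := by
            gcongr
            linarith
        _ = x ^ UE b / 3 := by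
            rw [div_pow]
            field_simp
        _ ≤ n / 3 := by gcongr
        _ ≤ m := by linarith
    exact_mod_cast h1
  have hmain := hJ J m hm1 hcond
  -- from `2 m` to `n`
  have hn' : n = 2 * m ∨ n = 2 * m + 1 := by omega
  have hh : h (2 * m) ≤ h n := by
    rcases hn' with h1 | h1
    · rw [← h1]
    · rw [h1]
      exact hmono _
  have hAn : A n ≤ b * A (2 * m) := by
    rcases hn' with h1 | h1
    · rw [← h1]
      calc A n = 1 * A n := (one_mul _).symm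
        _ ≤ b * A n := mul_le_mul_of_nonneg_right hb1 (hA0 n)
    · conv_lhs => rw [h1]
      exact hodd m
  have hJge2 : x / (12 * d) ≤ J := by
    have h1 : x / (4 * d) = 3 * (x / (12 * d)) := by
      field_simp
      norm_num
    have h2 : 2 ≤ x / (12 * d) := by
      rw [le_div_iff₀ (by positivity)]
      linarith
    linarith
  have hA2 := hA0 (2 * m)
  calc x / (24 * b ^ 4 * d) * A n ≤ x / (24 * b ^ 4 * d) * (b * A (2 * m)) := by gcongr
    _ = (b / b ^ 4) * (x / (12 * d) * A (2 * m) / 2) := by field_simp; ring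
    _ ≤ 1 * (x / (12 * d) * A (2 * m) / 2) := by
        refine mul_le_mul_of_nonneg_right ?_ (by positivity)
        rw [div_le_one (by positivity)]
        exact le_self_pow₀ hb1 (by norm_num)
    _ ≤ 1 * ((J : ℝ) * A (2 * m) / 2) := by gcongr
    _ ≤ h (2 * m) := by linarith
    _ ≤ h n := hh

end ZO
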