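import Pool.Agent.W_f569db_u64.UChain

set_option autoImplicit false

/-!
# The chain of a numerically trivial class, with Young symmetrizers of words

`z ∈ N ∅ (Fin k × D)`, `w : Fin k → (D → α)` a word with `z w ≠ 0`.  `tj w j`: the blocks of the sorted word
`w^j`, with `j * #{i | w i = l}` letters `l`.
-/

noncomputable section

namespace ZO

open Matrix Module

variable {α : Type} [Fintype α] [DecidableEq α] {K : Type*} [Field K] [CharZero K]
  {D : Type} [Fintype D] [DecidableEq D] {k : ℕ}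

/-- the blocks of the word `w^j` -/
def tj (w : Fin k → (D → α)) (j : ℕ) : List (ℕ × (D → α)) :=
  (Finset.univ : Finset (D → α)).toList.map fun l => (j * Fintype.card {i // w i = l}, l)

theorem length_tj (w : Fin k → (D → α)) (j : ℕ) : (tj w j).length = Fintype.card (D → α) := by
  unfold tj
  rw [List.length_map, Finset.length_toList, Finset.card_univ]

theorem mem_tj {w : Fin k → (D → α)} {j : ℕ} {p : ℕ × (D → α)} (hp : p ∈ tj w j) :
    p.1 ≤ j * k := by
  unfold tj at hp
  obtain ⟨l, _, rfl⟩ := List.mem_map.1 hp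
  refine Nat.mul_le_mul_left j ?_
  exact (Fintype.card_subtype_le _).trans (Fintype.card_fin k).le

theorem card_tj (w : Fin k → (D → α)) (j : ℕ) (l : D → α) :
    Fintype.card {q : Jt (tj w j) // lt (tj w j) q = l} = j * Fintype.card {i // w i = l} := by
  rw [card_lt]
  unfold tj
  rw [List.map_map]
  have h1 : (fun p : ℕ × (D → α) => if p.2 = l then p.1 else 0) ∘
      (fun l => (j * Fintype.card {i // w i = l}, l)) =
      fun l' => if l' = l then j * Fintype.card {i // w i = l'} else 0 := rfl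
  rw [h1, Finset.sum_map_toList]
  simp

/-- appending the word `w` to `w^j` -/
theorem exists_step (w : Fin k → (D → α)) (j : ℕ) : ∃ e : Jt (tj w j) ⊕ Fin k ≃ Jt (tj w (j + 1)),
    ∀ q, lt (tj w (j + 1)) (e q) = Sum.elim (lt (tj w j)) w q := by
  refine exists_equiv_colour _ _ fun l => ?_
  rw [card_tj]
  have h1 : Fintype.card {q : Jt (tj w j) ⊕ Fin k // Sum.elim (lt (tj w j)) w q = l} =
      Fintype.card {q : Jt (tj w j) // lt (tj w j) q = l} + Fintype.card {i : Fin k // w i = l} := by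
    rw [← Fintype.card_sum]
    exact Fintype.card_congr (Equiv.subtypeSum (p := fun q : Jt (tj w j) ⊕ Fin k =>
      Sum.elim (lt (tj w j)) w q = l))
  rw [h1, card_tj, Nat.succ_mul]

/-- the bijection of `exists_step` on `× D` -/
def stepE (w : Fin k → (D → α)) (j : ℕ) :
    (Jt (tj w j) × D) ⊕ (Fin k × D) ≃ Jt (tj w (j + 1)) × D :=
  (eB D (Jt (tj w j)) (Fin k)).trans
    (Equiv.prodCongr (exists_step w j).choose (Equiv.refl D))

theorem stepE_inl (w : Fin k → (D → α)) (j : ℕ) :
    (wL (tj w (j + 1)) ∘ stepE w j) ∘ Sum.inl = wL (tj w j) := by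
  funext q
  obtain ⟨q1, q2⟩ := q
  exact congrFun ((exists_step w j).choose_spec (Sum.inl q1)) q2

theorem stepE_inr (w : Fin k → (D → α)) (j : ℕ) :
    (wL (tj w (j + 1)) ∘ stepE w j) ∘ Sum.inr = fun q => w q.1 q.2 := by
  funext q
  obtain ⟨q1, q2⟩ := q
  exact congrFun ((exists_step w j).choose_spec (Sum.inr q1)) q2

variable (z : Matrix (Fin k × D → α) (Empty → α) K) (w : Fin k → (D → α))

/-- the operator `y ↦ e (y ⊗ z)` -/
def stepM (j : ℕ) : Matrix (Jt (tj w (j + 1)) × D → α) (Jt (tj w j) × D → α) K :=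
  eL α K D (tj w (j + 1)) * (pm α K (stepE w j) *
    (kr (1 : Matrix (Jt (tj w j) × D → α) (Jt (tj w j) × D → α) K) z *
      pm α K (Equiv.sumEmpty (Jt (tj w j) × D) Empty).symm))

theorem isEmpty_tj_zero (w : Fin k → (D → α)) : IsEmpty (Jt (tj w 0)) := by
  constructor
  intro q
  have h1 := card_tj w 0 (lt (tj w 0) q)
  rw [zero_mul, Fintype.card_eq_zero_iff] at h1
  exact h1.elim ⟨q, rfl⟩

/-- the tensors `y_j` -/
def stepY : (j : ℕ) → Matrix (Jt (tj w j) × D → α) (Empty → α) K
  | 0 => haveI := isEmpty_tj_zero w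
    pm α K (Equiv.equivOfIsEmpty Empty (Jt (tj w 0) × D))
  | j + 1 => stepM z w j * stepY j

theorem stepM_row (j : ℕ) (y : Matrix (Jt (tj w j) × D → α) (Empty → α) K) (i : Empty → α) :
    (stepM z w j * y) (wL (tj w (j + 1))) i =
      y (wL (tj w j)) i * z (fun q => w q.1 q.2) i := by
  unfold stepM
  rw [Matrix.mul_assoc, eL_row, Matrix.mul_assoc, pm_mul_apply, Matrix.mul_assoc, Matrix.mul_apply,
    Finset.sum_eq_single (Sum.elim (wL (tj w j)) (fun x : Empty => x.elim))]
  · rw [pm_mul_apply]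
    unfold kr
    rw [Matrix.of_apply, stepE_inl, stepE_inr]
    have h1 : (Sum.elim (wL (tj w j)) (fun x : Empty => x.elim) : _ ⊕ Empty → α) ∘ Sum.inl =
        wL (tj w j) := rfl
    have h2 : (Sum.elim (wL (tj w j)) (fun x : Empty => x.elim) : _ ⊕ Empty → α) ∘ Sum.inr = i :=
      Subsingleton.elim _ _
    have h3 : (Sum.elim (wL (tj w j)) (fun x : Empty => x.elim) : _ ⊕ Empty → α) ∘
        (Equiv.sumEmpty (Jt (tj w j) × D) Empty).symm = wL (tj w j) := rfl
    rw [h1, h2, h3, Matrix.one_apply_eq, one_mul, mul_comm]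
  · intro d _ hd
    have h4 : (wL (tj w (j + 1)) ∘ stepE w j) ∘ Sum.inl ≠ d ∘ Sum.inl := by
      intro h
      apply hd
      rw [stepE_inl] at h
      funext q
      rcases q with q | q
      · exact (congrFun h q).symm
      · exact q.elim
    unfold kr
    rw [Matrix.of_apply, Matrix.one_apply_ne h4, zero_mul, zero_mul]
  · intro h
    exact absurd (Finset.mem_univ _) h

theorem stepY_row (j : ℕ) (i : Empty → α) :
    stepY z w j (wL (tj w j)) i = (z (fun q => w q.1 q.2) i) ^ j := by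
  induction j with
  | zero =>
    have := isEmpty_tj_zero w
    change pm α K (Equiv.equivOfIsEmpty Empty (Jt (tj w 0) × D)) (wL (tj w 0)) i = _
    rw [Pm_apply, if_pos (Subsingleton.elim _ _), pow_zero]
  | succ j ih =>
    change (stepM z w j * stepY z w j) (wL (tj w (j + 1))) i = _
    rw [stepM_row, ih, pow_succ]

theorem stepY_ne_zero {i : Empty → α} (h : z (fun q => w q.1 q.2) i ≠ 0) (j : ℕ) :
    stepY z w j ≠ 0 := by
  intro h1
  have h2 := stepY_row z w j i
  rw [h1, Matrix.zero_apply] at h2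
  exact pow_ne_zero j h h2.symm

theorem eL_stepY (j : ℕ) : eL α K D (tj w j) * stepY z w j = stepY z w j := by
  cases j with
  | zero =>
    have := isEmpty_tj_zero w
    ext c i
    have h1 : c = wL (tj w 0) := Subsingleton.elim _ _
    rw [h1, eL_row]
  | succ j =>
    change eL α K D (tj w (j + 1)) * (stepM z w j * stepY z w j) = stepM z w j * stepY z w j
    unfold stepM
    rw [← Matrix.mul_assoc, ← Matrix.mul_assoc, eL_idem]

namespace Sys

variable (Q : Sys α K) {z}

theorem stepM_mem (hz : z ∈ Q.N Empty (Fin k × D)) (j : ℕ) :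
    stepM z w j ∈ Q.N (Jt (tj w j) × D) (Jt (tj w (j + 1)) × D) := by
  unfold stepM
  exact Q.N_mul_left (Q.eL_mem _) (Q.N_mul_left (Q.pm_mem _)
    (Q.N_mul_right (Q.one_kr_mem_N hz) (Q.pm_mem _)))

theorem stepY_mem (hz : z ∈ Q.N Empty (Fin k × D)) (j : ℕ) :
    stepY z w j ∈ Q.P Empty (Jt (tj w j) × D) := by
  induction j with
  | zero => exact Q.pm_mem _
  | succ j ih => exact Q.mul_mem (Q.stepM_mem w hz j).1 ih

theorem chainW [Nonempty α] (hz : z ∈ Q.N Empty (Fin k × D)) {i : Empty → α}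
    (h : z (fun q => w q.1 q.2) i ≠ 0) (T : Type) [Fintype T] [DecidableEq T] (J : ℕ) :
    ∑ j ∈ Finset.range J, (Q.pT T (eL α K D (tj w j)) -
      (((eL α K D (tj w j)).rank : ℝ) - 1) * Q.a T T) ≤ Q.h (2 * Fintype.card T) :=
  Q.chainG (fun j => Jt (tj w j) × D) (fun j => eL α K D (tj w j)) (fun j => stepY z w j)
    (fun _ => Q.eL_mem _) (fun _ => eL_idem _) (fun j => Q.stepY_mem w hz j)
    (fun j => stepY_ne_zero z w h j) (fun j => eL_stepY z w j)
    (fun j => ⟨stepM z w j, Q.stepM_mem w hz j, rfl⟩) T J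

end Sys

end ZO
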