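import Pool.Agent.W_b4801b_h57.FinalE

set_option autoImplicit false

/-!
# The deficit of symmetric powers, quantitative form

`adj_esym`: the symmetrizer is self-adjoint.
`sym_def`: `rank (esym j) * a - pT (esym j) ≤ j M (B C M) a` for `M ≥ rank (esym l)`, `l ≤ j`, and
`C = √(2 B^(2B+1) b^2 k / √m)`.
-/

noncomputable section

namespace ZO

open Matrix Module

section adj

variable {α : Type} [Fintype α] [DecidableEq α] {K : Type*} [Field K]
  {J D : Type} [Fintype J] [DecidableEq J] [Fintype D] [DecidableEq D]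

theorem USym_transpose : (esym α K J D)ᵀ = esym α K J D := by
  unfold esym
  rw [Matrix.transpose_smul, Matrix.transpose_sum]
  congr 1
  refine Fintype.sum_equiv (Equiv.inv (Equiv.Perm J)) _ _ fun σ => ?_
  rw [Equiv.inv_apply]
  unfold pmL
  rw [SymD_pm_transpose]
  rfl

theorem USym_tp (g : Matrix α α K) :
    tp g (J × D) * esym α K J D = esym α K J D * tp g (J × D) := by
  unfold esym
  rw [Matrix.mul_smul, Matrix.smul_mul, Matrix.mul_sum, Matrix.sum_mul]
  congr 1
  refine Finset.sum_congr rfl fun σ _ => ?_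
  exact SymD_tp_pm g _

theorem adj_esym {g g' : Matrix α α K} (h : g * g' = 1) :
    adj g g' (esym α K J D) = esym α K J D := by
  unfold adj
  rw [USym_tp, Matrix.mul_assoc, ← tp_mul, h, tp_one, Matrix.mul_one, USym_transpose]

end adj

variable {α : Type} [Fintype α] [DecidableEq α] [Nonempty α] {K : Type*} [Field K] [CharZero K]
  {D : Type} [Fintype D] [DecidableEq D]

namespace Sys

variable (Q : Sys α K)

theorem sym_def {k : ℕ} (hD : Fintype.card D = 2 * k) (j m : ℕ) (hm1 : 1 ≤ m) (M : ℝ)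
    (hM : ∀ l ≤ j, ((esym α K (Fin l) D).rank : ℝ) ≤ M) :
    ((esym α K (Fin j) D).rank : ℝ) * Q.a (Fin m) (Fin m) - Q.pT (Fin m) (esym α K (Fin j) D) ≤
      j * M * (((Fintype.card α ^ (2 * k) : ℕ) : ℝ) *
        Real.sqrt (2 * ((Fintype.card α ^ (2 * k) : ℕ) : ℝ) ^ (2 * Fintype.card α ^ (2 * k) + 1) *
          (Fintype.card α : ℝ) ^ 2 * k / Real.sqrt m) * M) * Q.a (Fin m) (Fin m) := by
  have hb : 1 ≤ Fintype.card α := Fintype.card_pos
  have hb' : (1 : ℝ) ≤ Fintype.card α := by exact_mod_cast hb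
  set B : ℕ := Fintype.card α ^ (2 * k) with hB
  have hB1 : 1 ≤ B := Nat.one_le_pow _ _ hb
  have hBr : ((Fintype.card α : ℝ) ^ (2 * k)) = (B : ℝ) := by rw [hB]; push_cast; rfl
  have hB1' : (1 : ℝ) ≤ B := by exact_mod_cast hB1
  have hm0 : (0 : ℝ) < m := by exact_mod_cast hm1
  have hsm : 0 < Real.sqrt m := Real.sqrt_pos.mpr hm0
  have haT : Q.a (Fin m) (Fin m) = Q.A (2 * m) := by
    rw [Q.a_eq_A (Fin m) (Fin m), Fintype.card_fin, ← two_mul]
  rw [haT]
  have ha : 0 < Q.A (2 * m) := by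
    rw [← haT]
    exact Q.a_pos (Fin m)
  set a : ℝ := Q.A (2 * m) with haDef
  -- the defect of the exterior power
  have hdef : ∀ i : ℕ, ((ealt α K (Fin i) D).rank : ℝ) - Q.pT (Fin m) (ealt α K (Fin i) D) / a ≤
      (B : ℝ) ^ i * (Fintype.card α : ℝ) ^ 2 * (i * k) / Real.sqrt m := by
    intro i
    have h1 := Q.alt_deficit hD i m hm1
    rw [hBr, ← haDef] at h1
    have h2 : ((ealt α K (Fin i) D).rank : ℝ) - Q.pT (Fin m) (ealt α K (Fin i) D) / a =
        (((ealt α K (Fin i) D).rank : ℝ) * a - Q.pT (Fin m) (ealt α K (Fin i) D)) / a := by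
      rw [sub_div, mul_div_cancel_right₀ _ ha.ne']
    rw [h2, div_le_iff₀ ha]
    exact h1
  have hmain := defic (fun i => ((ealt α K (Fin i) D).rank : ℝ))
    (fun l => ((esym α K (Fin l) D).rank : ℝ))
    (fun l => Q.pT (Fin m) (esym α K (Fin l) D) / a)
    (fun i => Real.sqrt (2 * ((ealt α K (Fin i) D).rank : ℝ) *
      (((ealt α K (Fin i) D).rank : ℝ) - Q.pT (Fin m) (ealt α K (Fin i) D) / a)))
    (fun i l => Q.pT (Fin m) (kr (ealt α K (Fin i) D) (esym α K (Fin l) D)) / a)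
    (by
      show ((ealt α K (Fin 0) D).rank : ℝ) = 1
      rw [rank_ealt_zero, Nat.cast_one])
    (by
      show ((esym α K (Fin 0) D).rank : ℝ) = 1
      rw [rank_esym_zero, Nat.cast_one])
    (by
      show Q.pT (Fin m) (esym α K (Fin 0) D) / a = 1
      rw [esym_fin_zero, Q.phi_one, zero_mul, zero_add, ← haDef, div_self ha.ne'])
    (fun l => Nat.cast_nonneg _)
    (fun j hj => koszul_rank j hj)
    (fun j hj => by
      have h1 := Q.FinalE_kos (D := D) (Fin m) j hj
      have h2 : ∑ q ∈ Finset.HasAntidiagonal.antidiagonal j, (-1 : ℝ) ^ q.1 *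
          (Q.pT (Fin m) (kr (ealt α K (Fin q.1) D) (esym α K (Fin q.2) D)) / a) =
          (∑ q ∈ Finset.HasAntidiagonal.antidiagonal j, (-1 : ℝ) ^ q.1 *
          Q.pT (Fin m) (kr (ealt α K (Fin q.1) D) (esym α K (Fin q.2) D))) / a := by
        rw [Finset.sum_div]
        refine Finset.sum_congr rfl fun q _ => ?_
        rw [mul_div_assoc]
      show ∑ q ∈ Finset.HasAntidiagonal.antidiagonal j, (-1 : ℝ) ^ q.1 *
          (Q.pT (Fin m) (kr (ealt α K (Fin q.1) D) (esym α K (Fin q.2) D)) / a) = 0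
      rw [h2, h1, zero_div])
    (fun l => by
      show Q.pT (Fin m) (kr (ealt α K (Fin 0) D) (esym α K (Fin l) D)) / a = _
      rw [Q.FinalE_P0])
    (fun i l _ => by
      have h1 := Q.virt (T := Fin m) (Q.esym_mem (J := Fin l) (D := D))
        (Q.ealt_mem (J := Fin i) (D := D)) esym_idem ealt_idem
      rw [adj_ealt Q.gg', haT] at h1
      have h2 : ((ealt α K (Fin i) D).rank : ℝ) *
          (Q.pT (Fin m) (esym α K (Fin l) D) / a) -
          Q.pT (Fin m) (kr (ealt α K (Fin i) D) (esym α K (Fin l) D)) / a =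
          (((ealt α K (Fin i) D).rank : ℝ) * Q.pT (Fin m) (esym α K (Fin l) D) -
          Q.pT (Fin m) (kr (ealt α K (Fin i) D) (esym α K (Fin l) D))) / a := by
        rw [sub_div, mul_div_assoc]
      show |((ealt α K (Fin i) D).rank : ℝ) * (Q.pT (Fin m) (esym α K (Fin l) D) / a) -
          Q.pT (Fin m) (kr (ealt α K (Fin i) D) (esym α K (Fin l) D)) / a| ≤
        Real.sqrt (2 * ((ealt α K (Fin i) D).rank : ℝ) *
          (((ealt α K (Fin i) D).rank : ℝ) - Q.pT (Fin m) (ealt α K (Fin i) D) / a)) *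
          ((esym α K (Fin l) D).rank : ℝ)
      rw [h2]
      have hR : (0 : ℝ) ≤ ((esym α K (Fin l) D).rank : ℝ) := Nat.cast_nonneg _
      rw [← Real.sqrt_sq hR, ← Real.sqrt_mul' _ (sq_nonneg _), ← Real.sqrt_sq_eq_abs]
      apply Real.sqrt_le_sqrt
      rw [div_pow, div_le_iff₀ (by positivity)]
      refine h1.trans (le_of_eq ?_)
      field_simp)
    B (C := Real.sqrt (2 * (B : ℝ) ^ (2 * B + 1) * (Fintype.card α : ℝ) ^ 2 * k / Real.sqrt m))
    (M := M) (Real.sqrt_nonneg _)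
    (fun i hi hiB => by
      apply Real.sqrt_le_sqrt
      have hr1 : ((ealt α K (Fin i) D).rank : ℝ) ≤ (B : ℝ) ^ i := by
        have := rank_ealt_le (α := α) (K := K) (D := D) i
        rw [hD, ← hB] at this
        exact_mod_cast this
      have hr0 : (0 : ℝ) ≤ ((ealt α K (Fin i) D).rank : ℝ) := Nat.cast_nonneg _
      have hi' : (i : ℝ) ≤ B := by exact_mod_cast hiB
      have hBi : (B : ℝ) ^ i ≤ (B : ℝ) ^ B := pow_le_pow_right₀ hB1' hiB
      have hd := hdef i
      have hnn : (0 : ℝ) ≤ (B : ℝ) ^ i * (Fintype.card α : ℝ) ^ 2 * (i * k) / Real.sqrt m := by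
        positivity
      calc 2 * ((ealt α K (Fin i) D).rank : ℝ) *
            (((ealt α K (Fin i) D).rank : ℝ) - Q.pT (Fin m) (ealt α K (Fin i) D) / a)
          ≤ 2 * ((ealt α K (Fin i) D).rank : ℝ) *
            ((B : ℝ) ^ i * (Fintype.card α : ℝ) ^ 2 * (i * k) / Real.sqrt m) :=
            mul_le_mul_of_nonneg_left hd (by positivity)
        _ ≤ 2 * (B : ℝ) ^ i *
            ((B : ℝ) ^ i * (Fintype.card α : ℝ) ^ 2 * (i * k) / Real.sqrt m) :=
            mul_le_mul_of_nonneg_right (by linarith) hnn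
        _ ≤ 2 * (B : ℝ) ^ B *
            ((B : ℝ) ^ B * (Fintype.card α : ℝ) ^ 2 * (B * k) / Real.sqrt m) := by
            gcongr
        _ = 2 * (B : ℝ) ^ (2 * B + 1) * (Fintype.card α : ℝ) ^ 2 * k / Real.sqrt m := by
            have : (B : ℝ) ^ (2 * B + 1) = (B : ℝ) ^ B * (B : ℝ) ^ B * B := by ring
            rw [this]
            ring)
    (fun i hi => by
      have h1 : ealt α K (Fin i) D = 0 := by
        apply ealt_eq_zero
        rw [hD, ← hB]
        exact hi
      show Real.sqrt (2 * ((ealt α K (Fin i) D).rank : ℝ) *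
          (((ealt α K (Fin i) D).rank : ℝ) - Q.pT (Fin m) (ealt α K (Fin i) D) / a)) = 0
      rw [h1, Matrix.rank_zero, Nat.cast_zero, mul_zero, zero_mul, Real.sqrt_zero])
    j hM
  have h3 := (abs_le.1 hmain).2
  have h4 : ((esym α K (Fin j) D).rank : ℝ) * a - Q.pT (Fin m) (esym α K (Fin j) D) =
      (((esym α K (Fin j) D).rank : ℝ) - Q.pT (Fin m) (esym α K (Fin j) D) / a) * a := by
    rw [sub_mul, div_mul_cancel₀ _ ha.ne']
  rw [h4]
  exact mul_le_mul_of_nonneg_right h3 ha.le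

end Sys

end ZO
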