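import Pool.Agent.W_f569db_u64.URate

set_option autoImplicit false

/-!
# The effective law for a system
-/

noncomputable section

namespace ZO

open Matrix Module

variable {α : Type} [Fintype α] [DecidableEq α] [Nonempty α] {K : Type*} [Field K] [CharZero K]

namespace Sys

variable (Q : Sys α K)

theorem A_odd (m : ℕ) : Q.A (2 * m + 1) ≤ Fintype.card α * Q.A (2 * m) := by
  have h1 := Q.pT_le (T := Fin m) (Q.one_mem Unit) (Matrix.one_mul _)
  have h2 : Q.pT (Fin m) (1 : Matrix (Unit → α) (Unit → α) K) = Q.a (Unit ⊕ Fin m) (Fin m) := by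
    unfold pT
    rw [kr_one, csp_sand_one]
    rfl
  rw [h2, Q.a_eq_A, Q.a_eq_A, Matrix.rank_one, Fintype.card_sum, Fintype.card_unit,
    Fintype.card_fin, Fintype.card_fun, Fintype.card_unit, pow_one] at h1
  have e1 : 1 + m + m = 2 * m + 1 := by ring
  have e2 : m + m = 2 * m := by ring
  rw [e1, e2] at h1
  exact h1

theorem A_nonneg (n : ℕ) : 0 ≤ Q.A n := by
  unfold A a
  have h1 := Submodule.finrank_mono (Q.N_le Empty (Fin n))
  have h2 : (finrank K (Q.N Empty (Fin n)) : ℝ) ≤ finrank K (Q.P Empty (Fin n)) := by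
    exact_mod_cast h1
  linarith

theorem A_le_h (n : ℕ) : Q.A n ≤ Q.h n := by
  unfold A a h
  have h1 : (0 : ℝ) ≤ finrank K (Q.N Empty (Fin n)) := Nat.cast_nonneg _
  linarith

theorem uniform {d : ℕ} {z : Matrix (Fin d → α) (Empty → α) K}
    (hz : z ∈ Q.N Empty (Fin d)) (hz0 : z ≠ 0) (J m : ℕ) (hm1 : 1 ≤ m)
    (hm : UC (Fintype.card α) * (J * d + 1) ^ UE (Fintype.card α) ≤ m) :
    (J : ℝ) * Q.A (2 * m) ≤ 2 * Q.h (2 * m) := by
  have hzz : mainT (S := Fin d) z z ∈ Q.N Empty (Fin d ⊕ Fin d) := by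
    have h1 : kr z (1 : Matrix (Fin d → α) (Fin d → α) K) *
        kr (1 : Matrix (Empty → α) (Empty → α) K) z = kr z z := by
      rw [kr_mul, Matrix.mul_one, Matrix.one_mul]
    rw [mainT_apply, ← h1]
    refine Q.N_mul_right (Q.N_mul_left (Q.kr_mem hz.1 (Q.one_mem (Fin d))) ?_) (Q.pm_mem _)
    exact Q.one_kr_mem_N hz
  have hzz0 : mainT (S := Fin d) z z ≠ 0 := mainT_ne_zero hz0 hz0
  let e : Fin d ⊕ Fin d ≃ Fin d × Bool :=
    ((Equiv.boolProdEquivSum (Fin d)).symm).trans (Equiv.prodComm Bool (Fin d))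
  have h1 : pm α K e * mainT (S := Fin d) z z ∈ Q.N Empty (Fin d × Bool) :=
    Q.N_mul_left (Q.pm_mem e) hzz
  have h2 : pm α K e * mainT (S := Fin d) z z ≠ 0 := by
    intro h3
    apply hzz0
    calc mainT (S := Fin d) z z = pm α K e.symm * pm α K e * mainT (S := Fin d) z z := by
          rw [pm_symm_mul, Matrix.one_mul]
      _ = 0 := by rw [Matrix.mul_assoc, h3, Matrix.mul_zero]
  exact Q.uniform_aux h1 h2 J m hm1 hm

/-- The effective law. -/
theorem rate {u : Matrix (Unit → α) (Empty → α) K} {v : Matrix (Empty → α) (Unit → α) K}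
    (hu : u ∈ Q.P Empty Unit) (hvu : v * u = 1) {d : ℕ} (hd : 1 ≤ d)
    {z : Matrix (Fin d → α) (Empty → α) K} (hz : z ∈ Q.N Empty (Fin d)) (hz0 : z ≠ 0) (n : ℕ) :
    (n : ℝ) ^ ((1 : ℝ) / (24 * (Fintype.card α : ℕ) ^ 4)) / (24 * (Fintype.card α : ℕ) ^ 4 * d) *
      Q.A n ≤ Q.h n := by
  have hu0 : u ≠ 0 := by
    rintro rfl
    rw [Matrix.mul_zero] at hvu
    have h1 := congrFun (congrFun hvu (fun e => e.elim)) (fun e => e.elim)
    rw [Matrix.one_apply_eq] at h1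
    exact zero_ne_one h1
  exact rate_num Q.A Q.h (Fintype.card α) d Fintype.card_pos hd Q.A_nonneg Q.A_le_h
    (Q.h_mono hu hu0) Q.A_odd (fun J m hm1 hm => Q.uniform hz hz0 J m hm1 hm) n

end Sys

end ZO
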