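import Pool.Agent.W_f569db_u64.USys
import Pool.Agent.W_f569db_zo.Law
import Pool.Agent.W_f569db_zs.StDefs

set_option autoImplicit false

/-!
# The effective law for a Weil cohomology, when the parity operator is algebraic
-/

noncomputable section

namespace ZO

open AlgebraicGeometry CategoryTheory MonoidalCategory
open Pool.Agent.WeilH_h6 Pool.Agent.WeilH_h6.VarClass

universe u v w

variable {k : Type u} [Field k] {𝒱 : VarClass k} {K : Type v} [Field K] [CharZero K]
  (W : Weil.{u, v, w} 𝒱 K)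

/-- If the parity operator of `H(X)` is algebraic, `b = dim H(X)` and `D(X^m)` fails, then
`h_n ≥ n^c c a_n / m` for all `n`, `c = 1 / (24 b^4)`. -/
theorem effective (X : 𝒱.Obj) (hpar : ZS.AlgParity W X) {m : ℕ} (hm : ¬ W.HomEqNum (X.pow m))
    (n : ℕ) :
    (n : ℝ) ^ ((1 : ℝ) / (24 * (Module.finrank K (W.H X) : ℕ) ^ 4)) /
      (24 * (Module.finrank K (W.H X) : ℕ) ^ 4 * m) * ZS.numRank W (X.pow n) ≤
        ZS.homRank W (X.pow n) := by
  rcases Nat.eq_zero_or_pos m with h0 | h0
  · rw [h0, Nat.cast_zero, mul_zero, div_zero, zero_mul]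
    exact Nat.cast_nonneg _
  classical
  have hp := isAlgEnd_par W (X := X) hpar
  obtain ⟨b, bs, π, hπ⟩ := exists_par_basis W X
  have hb : Module.finrank K (W.H X) = b := by
    rw [Module.finrank_eq_card_basis bs, Fintype.card_fin]
  have hne : Nonempty (Fin b) := Law_nonempty W bs
  obtain ⟨a, ha, ha0⟩ := Law_exists_nt W hm
  obtain ⟨z, hz, hz0⟩ := exists_N W bs hp hπ ha ha0
  obtain ⟨u, v, hu, _, hvu⟩ := exists_uv W bs hp hπ
  have hA : (sysX W bs hp hπ).A n = (ZS.numRank W (X.pow n) : ℝ) := by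
    rw [A_sysX, ← numRank_eq]
    rfl
  have hh : (sysX W bs hp hπ).h n = (ZS.homRank W (X.pow n) : ℝ) := by
    rw [h_sysX]
    rfl
  have h1 := (sysX W bs hp hπ).rate hu hvu h0 hz hz0 n
  rw [hA, hh, Fintype.card_fin] at h1
  rw [hb]
  exact h1

end ZO
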